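import Pool.Agent.Helper84.OB.Stmts

/-! # OB: the row MT -/

set_option autoImplicit false

universe u

open Set Pool.Agent.Helper84.BT
open scoped Matroid

namespace Pool.Agent.Helper77.OB

open Pool.Agent.Helper84.OB

theorem st_MT (h1 : ST_MD.{u}) (h2 : ST_NU.{u}) : ST_MT.{u} := by
  intro α _ M X Y W₁ W₂ hT hX hY hW₁ hY₁ r₁ hW₂ hY₂ r₂
  have hV : M.IsFlat (W₁ ∩ W₂) := by
    rw [Matroid.isFlat_iff_closure_eq]
    apply subset_antisymm
    · apply subset_inter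
      · have h3 := M.closure_subset_closure (inter_subset_left : W₁ ∩ W₂ ⊆ W₁)
        rwa [hW₁.1.closure] at h3
      · have h3 := M.closure_subset_closure (inter_subset_right : W₁ ∩ W₂ ⊆ W₂)
        rwa [hW₂.1.closure] at h3
    · exact M.subset_closure _ (inter_subset_left.trans hW₁.subset_ground)
  obtain ⟨V, hVe⟩ : ∃ V, V = W₁ ∩ W₂ := ⟨_, rfl⟩
  rw [← hVe] at hV ⊢
  have hYV : Y ⊆ V := by
    rw [hVe]
    exact subset_inter hY₁ hY₂
  refine ⟨cyc M V, isCyclicFlat_cyc hV, hY.isCyclic.subset_cyc hYV, cyc_subset, ?_⟩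
  have m := h1 α M hT W₁ W₂ X hW₁.1 hW₂.1 hX
  have n := h2 α M (cyc M V) V hV.subset_ground subset_rfl cyc_subset
  have a1 : rk M (X ∪ Y) ≤ rk M (W₁ ∪ W₂ ∪ X) := by
    apply rk_mono M
    intro x hx
    rcases hx with hx | hx
    · exact Or.inr hx
    · exact Or.inl (Or.inl (hY₁ hx))
  have a2 : rk M (X ∩ V) ≤ rk M (X ∩ cyc M V) + (V \ cyc M V).ncard := by
    refine (rk_mono M ?_).trans (rk_union_le_add_ncard M (X ∩ cyc M V) (V \ cyc M V))
    intro x hx
    by_cases h : x ∈ cyc M V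
    · exact Or.inl ⟨hx.1, h⟩
    · exact Or.inr ⟨hx.2, h⟩
  have a3 : (V \ cyc M V).ncard + (cyc M V).ncard = V.ncard :=
    Set.ncard_sdiff_add_ncard_of_subset cyc_subset
  rw [inter_comm W₁ X, inter_comm W₂ X, ← hVe, inter_comm V X] at m
  omega

end Pool.Agent.Helper77.OB
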